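import Mathlib
import Pool.Agent.H702Z.AmDefs
import Pool.Agent.H702Z.AmMain2

set_option autoImplicit false

namespace Pool.Agent.Results.MP_1df68a_gt.AArcKernel
open Pool.Agent.H702Z.AmDefs

theorem result :
    ∀ (G : Bool → Type) [∀ i, Group (G i)] (C : Type) [Group C] (φ : ∀ i, C →* G i),
      (∀ i, Function.Injective (φ i)) →
      (∀ i, ∃ d : G i → G i → ℝ, ProperInv d ∧ APC d) →
      ∀ d : Monoid.PushoutI φ → Monoid.PushoutI φ → ℝ, ProperInv d →
      ∀ (Q : Type) [Group Q] (ρ : Monoid.PushoutI φ →* Q),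
        (∃ dQ : Q → Q → ℝ, ProperInv dQ ∧ APC dQ) →
      ∀ N : Subgroup (Monoid.PushoutI φ), Commensurated N → APC (fun x y : N => d x y) →
      ∀ k n : ℕ,
        (∀ g : Monoid.PushoutI φ, ¬ Short φ k g →
          RelAsdimLE d N n {x | ρ x = 1 ∧ x ∈ (Monoid.PushoutI.base φ).range ∧
            g⁻¹ * x * g ∈ (Monoid.PushoutI.base φ).range}) →
        APC d := by
  intro G _ C _ φ hφ hG d hd Q _ ρ hQ N hN hA k n hk
  choose dG hG using hG
  obtain ⟨dQ, hQ⟩ := hQ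
  exact Pool.Agent.H702Z.Am.amalgam_apc2 hφ dG hG d hd ρ dQ hQ N hN hA k n hk

end Pool.Agent.Results.MP_1df68a_gt.AArcKernel
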